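import Pool.Agent.H586.AF.D

/-!
# AG-M3 (helper10 for helper586): moments of the lattice model, every closed subgroup of `U(N)`

Adapted from `Pool/Agent/H51/AF/M3.lean` (helper51).
-/

set_option autoImplicit false
set_option linter.unusedVariables false

open MeasureTheory Matrix Finset Filter Topology
open scoped Matrix.Norms.Frobenius Kronecker

namespace Pool.Agent.H10.AG

open Pool.Agent.H586
open Pool.Agent.H586.AF (IH)
open Pool.Agent.H586.AF.GG

noncomputable section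

variable {N L : ℕ} {G : Subgroup (UU N)}

lemma mt_inj {g h : G} (e : mt g = mt h) : g = h := Subtype.ext (Subtype.ext e)

lemma grp_zero {T : Mt N} {γ : ℝ → G} (hγ : Grp T γ) : γ 0 = 1 := by
  apply mt_inj
  rw [hγ 0, zero_smul, NormedSpace.exp_zero]
  rfl

lemma sh_zero {Λ : Type} [DecidableEq Λ] {T : Mt N} {γ : ℝ → G} (hγ : Grp T γ) (l : Λ)
    (σ : Λ → G) : sh γ l 0 σ = σ := by
  unfold sh
  rw [grp_zero hγ, one_mul, Function.update_eq_self]

lemma compactUU (N : ℕ) : CompactSpace (UU N) := by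
  apply isCompact_iff_compactSpace.mp
  have h1 : IsCompact {A : Mt N | ∀ i j, A i j ∈ Metric.closedBall (0 : ℂ) 1} := by
    have h2 : IsCompact (Set.pi Set.univ fun i : Fin N => Set.pi Set.univ
        fun j : Fin N => Metric.closedBall (0 : ℂ) 1) :=
      isCompact_univ_pi fun i => isCompact_univ_pi fun j => isCompact_closedBall 0 1
    have h3 : {A : Mt N | ∀ i j, A i j ∈ Metric.closedBall (0 : ℂ) 1} = (Set.pi Set.univ
        fun i : Fin N => Set.pi Set.univ fun j : Fin N => Metric.closedBall (0 : ℂ) 1) := by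
      ext A
      exact ⟨fun h i _ j _ => h i j, fun h i j => h i trivial j trivial⟩
    rw [h3]
    exact h2
  refine h1.of_isClosed_subset isClosed_unitary ?_
  intro A hA i j
  simpa using entry_norm_bound_of_unitary (𝕜 := ℂ) hA i j

lemma compactG (hG : IsClosed (G : Set (UU N))) : CompactSpace G := by
  have := compactUU N
  exact isCompact_iff_compactSpace.mp hG.isCompact

lemma mt_cont : Continuous (fun g : G => mt g) :=
  continuous_subtype_val.comp continuous_subtype_val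

lemma ip_cont (S : Mt N) : Continuous fun A : Mt N => ip S A := by
  unfold ip
  exact Complex.continuous_re.comp ((continuous_const.matrix_mul continuous_id).matrix_trace)

lemma wf_cont (l : IH L) : Continuous fun σ : IH L → G => wf σ l := by
  unfold wf
  exact (mt_cont.comp (continuous_apply l)).sub continuous_const

lemma sz_cont : Continuous fun σ : IH L → G => sz σ := by
  unfold sz
  exact continuous_finsetSum _ fun l _ =>
    ((mt_cont.comp (continuous_apply l)).sub continuous_const).norm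

lemma bdd (hG : IsClosed (G : Set (UU N))) (g : (IH L → G) → ℝ) (hg : Continuous g) :
    ∃ C, ∀ σ, |g σ| ≤ C := by
  have := compactG hG
  obtain ⟨C, hC⟩ := isCompact_univ.exists_bound_of_continuousOn hg.continuousOn
  exact ⟨C, fun σ => hC σ (Set.mem_univ _)⟩

lemma norm_sq (A : Mt N) : ‖A‖ ^ 2 = ∑ i, ∑ j, ‖A i j‖ ^ 2 := by
  rw [frobenius_norm_def, ← Real.rpow_natCast, ← Real.rpow_mul]
  · simp
  · exact sum_nonneg fun i _ => sum_nonneg fun j _ => by positivity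

lemma ip_self (A : Mt N) : ip A A = ‖A‖ ^ 2 := by
  rw [norm_sq]
  unfold ip
  rw [Matrix.trace, Complex.re_sum, Finset.sum_comm]
  refine sum_congr rfl fun j _ => ?_
  rw [Matrix.diag_apply, Matrix.mul_apply, Complex.re_sum]
  refine sum_congr rfl fun i _ => ?_
  rw [Matrix.conjTranspose_apply, ← Complex.normSq_eq_norm_sq, Complex.star_def,
    ← Complex.normSq_eq_conj_mul_self, Complex.ofReal_re]

lemma ip_le (A B : Mt N) : |ip A B| ≤ ‖A‖ * ‖B‖ := by
  have h1 : |ip A B| ≤ ∑ p : Fin N × Fin N, ‖A p.2 p.1‖ * ‖B p.2 p.1‖ := by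
    unfold ip
    rw [Matrix.trace, Fintype.sum_prod_type]
    refine (Complex.abs_re_le_norm _).trans ((norm_sum_le _ _).trans ?_)
    refine sum_le_sum fun j _ => ?_
    rw [Matrix.diag_apply, Matrix.mul_apply]
    refine (norm_sum_le _ _).trans (le_of_eq (sum_congr rfl fun i _ => ?_))
    rw [Matrix.conjTranspose_apply, norm_mul, norm_star]
  have h2 := Finset.sum_mul_sq_le_sq_mul_sq (univ : Finset (Fin N × Fin N))
    (fun p => ‖A p.2 p.1‖) (fun p => ‖B p.2 p.1‖)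
  have h3 : ∀ A : Mt N, ∑ p : Fin N × Fin N, ‖A p.2 p.1‖ ^ 2 = ‖A‖ ^ 2 := by
    intro A
    rw [norm_sq, Fintype.sum_prod_type, Finset.sum_comm]
  rw [h3, h3, ← mul_pow] at h2
  exact h1.trans (abs_le_of_sq_le_sq' h2 (by positivity)).2


lemma sct : SecondCountableTopology G := by
  have h1 : SecondCountableTopology (Mt N) :=
    inferInstanceAs (SecondCountableTopology (Fin N → Fin N → ℂ))
  have h2 : SecondCountableTopology (UU N) := TopologicalSpace.Subtype.secondCountableTopology _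
  exact TopologicalSpace.Subtype.secondCountableTopology _

lemma oms [MeasurableSpace G] [BorelSpace G] : OpensMeasurableSpace (IH L → G) := by
  have := sct (G := G)
  infer_instance

/-- the normalized Schwinger-Dyson identity -/
lemma sdn [MeasurableSpace G] [BorelSpace G] (hG : IsClosed (G : Set (UU N))) (hSD : S_SD)
    (hPB : S_PB) (μ : Measure G) [IsProbabilityMeasure μ] [μ.IsHaarMeasure]
    (L : ℕ) (hL : 2 ≤ L) (β : ℝ) (l : IH L) (T : Mt N) (γ : ℝ → G) (hγ : Grp T γ)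
    (F F' D : (IH L → G) → ℝ)
    (hF : Continuous F) (hF' : Continuous F') (hE : Continuous fun σ : IH L → G => en 0 L 0 σ)
    (hD : Continuous D)
    (h1 : ∀ σ, HasDerivAt (fun t => F (sh γ l t σ)) (F' σ) 0)
    (h2 : ∀ σ, HasDerivAt (fun t => en 0 L 0 (sh γ l t σ)) (D σ) 0) :
    ∫ σ, F' σ ∂(gb μ L β) = β * ∫ σ, F σ * D σ ∂(gb μ L β) := by
  have := oms (G := G) (L := L)
  obtain ⟨C1, b1⟩ := bdd hG F hF
  obtain ⟨C2, b2⟩ := bdd hG F' hF'
  obtain ⟨C3, b3⟩ := bdd hG _ hE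
  obtain ⟨C4, b4⟩ := bdd hG D hD
  have h := hSD hG μ l T γ hγ β (max (max C1 C2) (max C3 C4)) F F' (fun σ => en 0 L 0 σ) D
    hF.measurable hF'.measurable hE.measurable hD.measurable (fun σ =>
      ⟨(b1 σ).trans ((le_max_left _ _).trans (le_max_left _ _)),
        (b2 σ).trans ((le_max_right _ _).trans (le_max_left _ _)),
        (b3 σ).trans ((le_max_left _ _).trans (le_max_right _ _)),
        (b4 σ).trans ((le_max_right _ _).trans (le_max_right _ _))⟩) h1 h2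
  rw [(hPB hG μ L hL β).2.2, (hPB hG μ L hL β).2.2, h, mul_div_assoc]

lemma pw {β : ℝ} (hβ : 1 ≤ β) :
    β ^ (-(9 / 20) : ℝ) + β * (β ^ (-(9 / 20) : ℝ)) ^ 3 + β ^ 2 * (β ^ (-(9 / 20) : ℝ)) ^ 5 +
      (1 + β + β ^ 2) * β ^ (-9 : ℝ) ≤ 6 * β ^ (-(1 / 4) : ℝ) := by
  have hβ0 : 0 < β := by linarith
  have h1 : β ^ (-(9 / 20) : ℝ) ≤ β ^ (-(1 / 4) : ℝ) :=
    Real.rpow_le_rpow_of_exponent_le hβ (by norm_num)
  have h2 : β * (β ^ (-(9 / 20) : ℝ)) ^ 3 ≤ β ^ (-(1 / 4) : ℝ) := by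
    have e : β * (β ^ (-(9 / 20) : ℝ)) ^ 3 = β ^ (-(7 / 20) : ℝ) := by
      rw [← Real.rpow_natCast, ← Real.rpow_mul hβ0.le]
      nth_rewrite 1 [← Real.rpow_one β]
      rw [← Real.rpow_add hβ0]
      congr 1
      norm_num
    rw [e]
    exact Real.rpow_le_rpow_of_exponent_le hβ (by norm_num)
  have h3 : β ^ 2 * (β ^ (-(9 / 20) : ℝ)) ^ 5 = β ^ (-(1 / 4) : ℝ) := by
    rw [← Real.rpow_natCast, ← Real.rpow_natCast, ← Real.rpow_mul hβ0.le, ← Real.rpow_add hβ0]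
    congr 1
    norm_num
  have h4 : (1 + β + β ^ 2) * β ^ (-9 : ℝ) ≤ 3 * β ^ (-(1 / 4) : ℝ) := by
    have e1 : 1 + β + β ^ 2 ≤ 3 * β ^ 2 := by nlinarith
    have e2 : 0 ≤ β ^ (-9 : ℝ) := Real.rpow_nonneg hβ0.le _
    have e3 : β ^ 2 * β ^ (-9 : ℝ) ≤ β ^ (-(1 / 4) : ℝ) := by
      rw [← Real.rpow_natCast, ← Real.rpow_add hβ0]
      exact Real.rpow_le_rpow_of_exponent_le hβ (by norm_num)
    calc (1 + β + β ^ 2) * β ^ (-9 : ℝ) ≤ (3 * β ^ 2) * β ^ (-9 : ℝ) :=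
          mul_le_mul_of_nonneg_right e1 e2
      _ = 3 * (β ^ 2 * β ^ (-9 : ℝ)) := by ring
      _ ≤ 3 * β ^ (-(1 / 4) : ℝ) := mul_le_mul_of_nonneg_left e3 (by norm_num)
  linarith

/-- the tail -/
lemma tail [MeasurableSpace G] [BorelSpace G] (hG : IsClosed (G : Set (UU N))) (hPB : S_PB)
    (μ : Measure G) [IsProbabilityMeasure μ] [μ.IsHaarMeasure] (L : ℕ) (hL : 2 ≤ L) (β : ℝ)
    (h : ∫ σ in {σ : IH L → G | β ^ (-(9 / 20) : ℝ) < 2 * sz σ}, Real.exp (-(β * en 0 L 0 σ))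
      ∂(Measure.pi fun _ => μ) ≤
      β ^ (-9 : ℝ) * ∫ σ : IH L → G, Real.exp (-(β * en 0 L 0 σ)) ∂(Measure.pi fun _ => μ)) :
    (gb μ L β).real {σ | β ^ (-(9 / 20) : ℝ) < 2 * sz σ} ≤ β ^ (-9 : ℝ) := by
  have := oms (G := G) (L := L)
  obtain ⟨hprob, hZ, hint⟩ := hPB hG μ L hL β
  have hopen : MeasurableSet {σ : IH L → G | β ^ (-(9 / 20) : ℝ) < 2 * sz σ} :=
    (isOpen_lt continuous_const (continuous_const.mul sz_cont)).measurableSet
  generalize {σ : IH L → G | β ^ (-(9 / 20) : ℝ) < 2 * sz σ} = A at h hopen ⊢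
  have e1 : (gb μ L β).real A = ∫ σ, A.indicator (fun _ => (1 : ℝ)) σ ∂(gb μ L β) := by
    rw [integral_indicator_const (1 : ℝ) hopen, smul_eq_mul, mul_one]
  rw [e1, hint, div_le_iff₀ hZ]
  refine le_trans (le_of_eq ?_) h
  rw [← integral_indicator hopen]
  refine integral_congr_ae (Eventually.of_forall fun σ => ?_)
  show A.indicator (fun _ => (1 : ℝ)) σ * Real.exp (-(β * en 0 L 0 σ)) =
    A.indicator (fun σ => Real.exp (-(β * en 0 L 0 σ))) σ
  by_cases hσ : σ ∈ A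
  · rw [Set.indicator_of_mem hσ, Set.indicator_of_mem hσ, one_mul]
  · rw [Set.indicator_of_notMem hσ, Set.indicator_of_notMem hσ, zero_mul]

lemma kr1 {n : ℕ} {Λ : Type} [Fintype Λ] (A : Matrix Λ Λ ℝ) (φ : Λ × Fin n → ℝ)
    (i : Λ × Fin n) :
    ∑ m : Λ × Fin n, (A ⊗ₖ (1 : Matrix (Fin n) (Fin n) ℝ)) i m * φ m =
      ∑ l', A i.1 l' * φ (l', i.2) := by
  rw [Fintype.sum_prod_type]
  refine sum_congr rfl fun l' _ => ?_
  simp only [Matrix.kroneckerMap_apply, Matrix.one_apply, mul_ite, mul_one, mul_zero,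
    ite_mul, zero_mul, Finset.sum_ite_eq, mem_univ, if_true]

lemma kr2 {n : ℕ} {Λ : Type} [Fintype Λ] [DecidableEq Λ] (A B : Matrix Λ Λ ℝ) (h : B * A = 1) :
    (B ⊗ₖ (1 : Matrix (Fin n) (Fin n) ℝ)) * (A ⊗ₖ (1 : Matrix (Fin n) (Fin n) ℝ)) = 1 := by
  rw [← Matrix.mul_kronecker_mul, h, Matrix.one_mul, Matrix.one_kronecker_one]

lemma kr3 {n : ℕ} {Λ : Type} (A : Matrix Λ Λ ℝ) (i j : Λ × Fin n) :
    (A ⊗ₖ (1 : Matrix (Fin n) (Fin n) ℝ)) i j = if i.2 = j.2 then A i.1 j.1 else 0 := by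
  rw [Matrix.kroneckerMap_apply, Matrix.one_apply]
  split_ifs
  · rw [mul_one]
  · rw [mul_zero]

theorem core [MeasurableSpace G] [BorelSpace G] (hMO : AF.S_MO) {n : ℕ} {L : ℕ}
    (P : Measure (IH L → G)) [IsProbabilityMeasure P]
    (T : Fin n → Mt N) (hT1 : ∀ a, ‖T a‖ ≤ 1)
    (horth : ∀ a b, ip (T a) (T b) = if a = b then 1 else 0)
    (γ : Fin n → ℝ → G) (hγ : ∀ a, Grp (T a) (γ a))
    (hder : ∀ (l l' : IH L) (a b : Fin n) (σ : IH L → G),
      HasDerivAt (fun t => ip (T b) (wf (sh (γ a) l t σ) l'))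
        (if l = l' then ip (T b) (T a) + ip (T b) (T a * wf σ l) else 0) 0)
    (D : IH L → Fin n → (IH L → G) → ℝ) (hDc : ∀ l a, Continuous (D l a))
    (A B : Matrix (IH L) (IH L) ℝ)
    (β K M p : ℝ) (z : (IH L → G) → ℝ) (hz : Continuous z)
    (hz0 : ∀ σ l, ‖wf σ l‖ ≤ z σ) (hz1 : ∀ σ, 0 ≤ z σ) (hzK : ∀ σ, 2 * z σ ≤ K)
    (hDb : ∀ l a σ, |D l a σ - ∑ l', A l l' * ip (T a) (wf σ l')| ≤ K * z σ ^ 2)
    (hBA : B * A = 1) (hBK : ∀ i j, |B i j| ≤ K) (hcard : (Fintype.card (IH L × Fin n) : ℝ) ≤ K)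
    (hK : 1 ≤ K) (hβ : 1 ≤ β) (hM : 0 ≤ M) (hp : 0 ≤ p) (htail : P.real {σ | M < 2 * z σ} ≤ p)
    (hsd : ∀ (l : IH L) (a : Fin n) (F F' : (IH L → G) → ℝ), Continuous F → Continuous F' →
      (∀ σ, HasDerivAt (fun t => F (sh (γ a) l t σ)) (F' σ) 0) →
        ∫ σ, F' σ ∂P = β * ∫ σ, F σ * D l a σ ∂P) :
    (∀ x y : IH L × Fin n, |β * ∫ σ, ip (T x.2) (wf σ x.1) * ip (T y.2) (wf σ y.1) ∂P -
      (if x.2 = y.2 then B x.1 y.1 else 0)| ≤
        100 * K ^ 9 * (M + β * M ^ 3 + β ^ 2 * M ^ 5 + (1 + β + β ^ 2) * p)) ∧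
    (∀ x y z w : IH L × Fin n, |β ^ 2 * ∫ σ, ip (T x.2) (wf σ x.1) * ip (T y.2) (wf σ y.1) *
        ip (T z.2) (wf σ z.1) * ip (T w.2) (wf σ w.1) ∂P -
      ((if x.2 = y.2 then B x.1 y.1 else 0) * (if z.2 = w.2 then B z.1 w.1 else 0) +
       (if x.2 = z.2 then B x.1 z.1 else 0) * (if y.2 = w.2 then B y.1 w.1 else 0) +
       (if x.2 = w.2 then B x.1 w.1 else 0) * (if y.2 = z.2 then B y.1 z.1 else 0))| ≤
        100 * K ^ 9 * (M + β * M ^ 3 + β ^ 2 * M ^ 5 + (1 + β + β ^ 2) * p)) := by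
  have := oms (G := G) (L := L)
  obtain ⟨φ, hφ⟩ : ∃ φ : IH L × Fin n → (IH L → G) → ℝ, ∀ i σ, φ i σ = ip (T i.2) (wf σ i.1) :=
    ⟨_, fun _ _ => rfl⟩
  obtain ⟨R, hR⟩ : ∃ R : IH L × Fin n → IH L × Fin n → (IH L → G) → ℝ, ∀ i j σ, R i j σ =
    if i.1 = j.1 then ip (T j.2) (T i.2 * wf σ i.1) else 0 := ⟨_, fun _ _ _ => rfl⟩
  have hφc : ∀ i, Continuous (φ i) := fun i => by
    have : φ i = fun σ => ip (T i.2) (wf σ i.1) := funext (hφ i)
    rw [this]
    exact (ip_cont _).comp (wf_cont _)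
  have hRc : ∀ i j, Continuous (R i j) := fun i j => by
    have : R i j = fun σ => if i.1 = j.1 then ip (T j.2) (T i.2 * wf σ i.1) else 0 :=
      funext (hR i j)
    rw [this]
    by_cases h : i.1 = j.1
    · simp only [h, if_true]
      exact (ip_cont _).comp (continuous_const.matrix_mul (wf_cont _))
    · simp only [h, if_false]
      exact continuous_const
  -- derivatives of the fields
  have hd : ∀ (i j : IH L × Fin n) (σ : IH L → G), HasDerivAt (fun t => φ j (sh (γ i.2) i.1 t σ))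
      ((if i = j then 1 else 0) + R i j σ) 0 := by
    intro i j σ
    have h1 := hder i.1 j.1 i.2 j.2 σ
    have e1 : (fun t => φ j (sh (γ i.2) i.1 t σ)) =
        fun t => ip (T j.2) (wf (sh (γ i.2) i.1 t σ) j.1) := funext fun t => hφ j _
    rw [e1]
    refine h1.congr_deriv ?_
    rw [hR, horth]
    by_cases h2 : i.1 = j.1
    · rw [if_pos h2, if_pos h2]
      by_cases h3 : i.2 = j.2
      · rw [if_pos h3.symm, if_pos (Prod.ext h2 h3)]
      · rw [if_neg (fun h => h3 h.symm), if_neg (fun h => h3 (by rw [h]))]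
    · rw [if_neg h2, if_neg h2, if_neg (fun h => h2 (by rw [h])), add_zero]
  have hs0 : ∀ (i : IH L × Fin n) (σ : IH L → G), sh (γ i.2) i.1 0 σ = σ :=
    fun i σ => sh_zero (hγ _) _ _
  have h := hMO P φ (fun i => D i.1 i.2) R (fun σ => 2 * z σ)
    (A ⊗ₖ (1 : Matrix (Fin n) (Fin n) ℝ)) (B ⊗ₖ (1 : Matrix (Fin n) (Fin n) ℝ)) β K M p hK hβ hM hp
    (fun i => (hφc i).measurable) (fun i => (hDc i.1 i.2).measurable)
    (fun i j => (hRc i j).measurable) (continuous_const.mul hz).measurable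
    (fun i σ => by
      rw [hφ]
      refine (ip_le _ _).trans ?_
      have h1 := mul_le_mul_of_nonneg_right (hT1 i.2) (norm_nonneg (wf σ i.1))
      have h2 := hz0 σ i.1
      have h3 := hz1 σ
      linarith)
    hzK
    (fun i σ => by
      rw [kr1 A (fun m => φ m σ) i]
      simp only [hφ]
      refine (hDb i.1 i.2 σ).trans ?_
      nlinarith [sq_nonneg (z σ)])
    (fun i j σ => by
      rw [hR]
      have h0 : 0 ≤ K * (2 * z σ) := mul_nonneg (by linarith) (by linarith [hz1 σ])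
      by_cases h : i.1 = j.1
      · rw [if_pos h]
        have h1 : ‖T i.2 * wf σ i.1‖ ≤ z σ := by
          refine (frobenius_norm_mul _ _).trans ?_
          have h2 := mul_le_mul_of_nonneg_right (hT1 i.2) (norm_nonneg (wf σ i.1))
          linarith [hz0 σ i.1]
        have h3 : |ip (T j.2) (T i.2 * wf σ i.1)| ≤ z σ := by
          refine (ip_le _ _).trans ?_
          have h2 := mul_le_mul_of_nonneg_right (hT1 j.2) (norm_nonneg (T i.2 * wf σ i.1))
          linarith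
        refine h3.trans ?_
        nlinarith [hz1 σ]
      · rw [if_neg h, abs_zero]
        exact h0)
    (kr2 A B hBA)
    (fun i j => by
      rw [kr3]
      split_ifs
      · exact hBK _ _
      · rw [abs_zero]
        linarith)
    hcard htail
    (fun i j => hsd i.1 i.2 (φ j) _ (hφc j) (continuous_const.add (hRc i j)) (hd i j))
    (fun i j k l => by
      have h1 := hsd i.1 i.2 (fun σ => φ j σ * φ k σ * φ l σ)
        (fun σ => ((if i = j then 1 else 0) + R i j σ) * φ k σ * φ l σ +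
          φ j σ * ((if i = k then 1 else 0) + R i k σ) * φ l σ +
          φ j σ * φ k σ * ((if i = l then 1 else 0) + R i l σ))
        (((hφc j).mul (hφc k)).mul (hφc l))
        (((((continuous_const.add (hRc i j)).mul (hφc k)).mul (hφc l)).add
          (((hφc j).mul (continuous_const.add (hRc i k))).mul (hφc l))).add
          (((hφc j).mul (hφc k)).mul (continuous_const.add (hRc i l))))
        (fun σ => by
          have h2 := ((hd i j σ).mul (hd i k σ)).mul (hd i l σ)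
          refine h2.congr_deriv ?_
          simp only [Pi.mul_apply, hs0]
          ring)
      exact h1)
  simp only [hφ, kr3] at h
  exact h

theorem tm3 (hMO : AF.S_MO) (hHR : AF.S_HR) (hAI : AF.S_AI) (hQF : AF.S_QF) (hSD : S_SD)
    (hDE : S_DE) (hEB : S_EB) (hTL : S_TL) (hPB : S_PB) (hLIE : S_LIE) : S_M3 := by
  intro N G _ _ hG n T hT
  obtain ⟨C₁, hC₁⟩ := hDE hQF hHR
  obtain ⟨K₀, hK₀⟩ := hTL (G := G) hG
  have hTa : ∀ a, (T a)ᴴ = -T a := ((hLIE G hG).2 T hT).1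
  have hT1 : ∀ a, ‖T a‖ ≤ 1 := by
    intro a
    have h1 := ip_self (T a)
    rw [hT.orth a a, if_pos rfl] at h1
    have h2 := norm_nonneg (T a)
    nlinarith
  choose γ hγ using fun (a : Fin n) => (show ∀ t : ℝ, ∃ g : G, mt g = NormedSpace.exp (t • T a)
    from hT.mem a)
  have hγ' : ∀ a, Grp (T a) (γ a) := fun a t => hγ a t
  obtain ⟨c, hc⟩ : ∃ c : ℝ, c = (12 + |C₁|) * (1 + N) * (1 + n) := ⟨_, rfl⟩
  have hN0 : (0 : ℝ) ≤ N := Nat.cast_nonneg N
  have hn0 : (0 : ℝ) ≤ n := Nat.cast_nonneg n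
  have hC0 := abs_nonneg C₁
  have hcC : |C₁| * (1 + N) ≤ c := by
    rw [hc]
    have : 0 ≤ (12 + |C₁|) * (1 + N) * n := by positivity
    nlinarith
  have hc12 : 12 * (1 + N) ≤ c := by
    rw [hc]
    have : 0 ≤ (12 + |C₁|) * (1 + N) * n := by positivity
    have : 0 ≤ |C₁| * (1 + (N : ℝ)) := by positivity
    nlinarith
  have hcn : 3 * (n : ℝ) ≤ c := by
    rw [hc]
    have h1 : (12 : ℝ) ≤ (12 + |C₁|) * (1 + N) := by nlinarith
    nlinarith
  have hc1 : 1 ≤ c := by linarith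
  refine ⟨600 * c ^ 9, 36, K₀, ?_, ?_⟩
  · have := one_le_pow₀ hc1 (n := 9)
    linarith
  intro μ _ _ L hL β hβ
  have hLR : (2 : ℝ) ≤ L := by exact_mod_cast hL
  have hL1 : (1 : ℝ) ≤ L := by linarith
  have hβ1 : 1 ≤ β := (one_le_pow₀ hL1).trans hβ
  have hβ0 : 0 < β := by linarith
  have hL4 : (1 : ℝ) ≤ (L : ℝ) ^ 4 := one_le_pow₀ hL1
  have hL24 : (L : ℝ) ^ 2 ≤ (L : ℝ) ^ 4 := pow_le_pow_right₀ hL1 (by norm_num)
  obtain ⟨hEB1, -, hEc, hcard⟩ := hEB (N := N) (G := G) L hL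
  obtain ⟨hpos, hCb, -⟩ := hAI L hL
  have hprob := (hPB hG μ L hL β).1
  choose D hDc hD using fun (l : IH L) (a : Fin n) =>
    (hC₁ (T a) (hTa a) (hT1 a) (γ a) (hγ' a) L hL l).2
  have hder : ∀ (l l' : IH L) (a b : Fin n) (σ : IH L → G),
      HasDerivAt (fun t => ip (T b) (wf (sh (γ a) l t σ) l'))
        (if l = l' then ip (T b) (T a) + ip (T b) (T a * wf σ l) else 0) 0 :=
    fun l l' a b σ => (hC₁ (T a) (hTa a) (hT1 a) (γ a) (hγ' a) L hL l).1 (T b) l' σ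
  obtain ⟨K, hK⟩ : ∃ K : ℝ, K = c * (L : ℝ) ^ 4 := ⟨_, rfl⟩
  have hK1 : 1 ≤ K := by
    rw [hK]
    nlinarith
  have hK2 : (L : ℝ) ^ 2 ≤ K := by
    rw [hK]
    nlinarith
  have hsz0 : ∀ σ : IH L → G, 0 ≤ sz σ := fun σ => by
    unfold sz
    exact sum_nonneg fun _ _ => norm_nonneg _
  have hszl : ∀ (σ : IH L → G) (l : IH L), ‖wf σ l‖ ≤ sz σ := fun σ l => by
    unfold sz wf
    exact single_le_sum (f := fun l => ‖mt (σ l) - 1‖) (fun _ _ => norm_nonneg _) (mem_univ l)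
  have hszK : ∀ σ : IH L → G, 2 * sz σ ≤ K := fun σ => by
    have h1 := (hEB1 σ).2.2.2
    rw [hK]
    have h2 : 12 * (N : ℝ) * (L : ℝ) ^ 4 ≤ c * (L : ℝ) ^ 4 :=
      mul_le_mul_of_nonneg_right (by linarith) (by positivity)
    linarith
  have htail := tail hG hPB μ L hL β (hK₀ μ L hL β hβ)
  have hDb : ∀ (l : IH L) (a : Fin n) (σ : IH L → G),
      |D l a σ - ∑ l', AF.mA L l l' * ip (T a) (wf σ l')| ≤ K * sz σ ^ 2 := fun l a σ => by
    refine (hD l a σ).2.trans ?_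
    rw [hK]
    refine mul_le_mul_of_nonneg_right (mul_le_mul_of_nonneg_right ?_ (by positivity))
      (sq_nonneg _)
    exact (mul_le_mul_of_nonneg_right (le_abs_self C₁) (by positivity)).trans hcC
  have hinv : (AF.mA L)⁻¹ * AF.mA L = 1 :=
    Matrix.nonsing_inv_mul _ (isUnit_iff_ne_zero.2 hpos.det_pos.ne')
  have hcd : (Fintype.card (IH L × Fin n) : ℝ) ≤ K := by
    rw [Fintype.card_prod, Fintype.card_fin, hK, Nat.cast_mul]
    have h1 := mul_le_mul_of_nonneg_right hcard hn0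
    have h2 := mul_le_mul_of_nonneg_right hcn (show (0 : ℝ) ≤ (L : ℝ) ^ 4 by positivity)
    linarith
  have hh := core hMO (gb μ L β) T hT1 hT.orth γ hγ' hder D hDc (AF.mA L)
    ((AF.mA L)⁻¹) β K (β ^ (-(9 / 20) : ℝ)) (β ^ (-9 : ℝ)) (fun σ => sz σ) sz_cont hszl hsz0 hszK hDb
    hinv (fun i j => (hCb i j).trans hK2) hcd hK1 hβ1 (Real.rpow_nonneg hβ0.le _)
    (Real.rpow_nonneg hβ0.le _) htail
    (fun l a F F' hF hF' hd => sdn hG hSD hPB μ L hL β l (T a) (γ a) (hγ' a) F F' (D l a) hF hF'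
      hEc (hDc l a) hd (fun σ => (hD l a σ).1))
  have hfin : 100 * K ^ 9 * (β ^ (-(9 / 20) : ℝ) + β * (β ^ (-(9 / 20) : ℝ)) ^ 3 +
      β ^ 2 * (β ^ (-(9 / 20) : ℝ)) ^ 5 + (1 + β + β ^ 2) * β ^ (-9 : ℝ)) ≤
      600 * c ^ 9 * (L : ℝ) ^ 36 * β ^ (-(1 / 4) : ℝ) := by
    have h1 := mul_le_mul_of_nonneg_left (pw hβ1) (show 0 ≤ 100 * K ^ 9 by positivity)
    refine h1.trans (le_of_eq ?_)
    rw [hK, mul_pow, ← pow_mul]
    ring
  exact ⟨fun x y => (hh.1 x y).trans hfin, fun x y z w => (hh.2 x y z w).trans hfin, htail⟩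

end

end Pool.Agent.H10.AG
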